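import Pool.Agent.Helper10.AB.GoalsF4

/-! # Project AB (MP_1ef41b_an), module FM, packet FJ1: `F̃_J` is smooth in `t` with rapidly
decreasing derivatives. -/

open MeasureTheory Set Filter Topology
open scoped ContDiff

noncomputable section

namespace Pool.Agent.Helper42.AB.FJ

open Pool.Agent.Helper24.AB Pool.Agent.Helper10.AB

/-- chain of derivatives -/
theorem chain_cd {F : ℕ → ℝ → ℂ} (h : ∀ k t, HasDerivAt (F k) (F (k + 1) t) t) :
    ContDiff ℝ ∞ (F 0) ∧ ∀ k, iteratedDeriv k (F 0) = F k := by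
  have h2 : ∀ k, iteratedDeriv k (F 0) = F k := by
    intro k
    induction k with
    | zero => simp
    | succ k ih =>
      rw [iteratedDeriv_succ, ih]
      funext t
      exact (h k t).deriv
  refine ⟨?_, h2⟩
  refine contDiff_of_differentiable_iteratedDeriv fun k _ => ?_
  rw [h2]
  exact fun t => (h k t).differentiableAt

/-- constant multiple of a real function, as a complex function -/
theorem norm_u {E : ℝ → ℝ} (hE : ContDiff ℝ ∞ E) {c : ℝ} (hc : 0 ≤ c) (k : ℕ) (t : ℝ) :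
    ‖iteratedDeriv k (fun t => ((c * E t : ℝ) : ℂ)) t‖ ≤ c * |iteratedDeriv k E t| := by
  set L : ℝ →L[ℝ] ℂ := Complex.ofRealCLM.comp (c • ContinuousLinearMap.id ℝ ℝ) with hL
  have hLE : (fun t => ((c * E t : ℝ) : ℂ)) = L ∘ E := by
    funext t
    simp [hL]
  have hn : ‖L‖ ≤ c := by
    refine ContinuousLinearMap.opNorm_le_bound _ hc fun x => ?_
    simp [hL, abs_of_nonneg hc]
  rw [hLE, ← norm_iteratedFDeriv_eq_norm_iteratedDeriv, ← Real.norm_eq_abs,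
    ← norm_iteratedFDeriv_eq_norm_iteratedDeriv]
  refine (L.norm_iteratedFDeriv_comp_left (N := (k : ℕ∞)) (hE.of_le (by exact_mod_cast le_top)).contDiffAt
    (by exact_mod_cast le_rfl)).trans ?_
  exact mul_le_mul_of_nonneg_right hn (norm_nonneg _)

theorem norm_prod {u v : ℝ → ℂ} (hu : ContDiff ℝ ∞ u) (hv : ContDiff ℝ ∞ v) (k : ℕ) (t : ℝ) :
    ‖iteratedDeriv k (fun t => u t * v t) t‖ ≤ ∑ i ∈ Finset.range (k + 1),
      (k.choose i : ℝ) * ‖iteratedDeriv i u t‖ * ‖iteratedDeriv (k - i) v t‖ := by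
  have h := norm_iteratedFDeriv_mul_le (𝕜 := ℝ) (N := ∞) hu hv t (n := k) (by exact_mod_cast le_top)
  simpa only [norm_iteratedFDeriv_eq_norm_iteratedDeriv] using h

theorem W_ge (J : Fin 3 → ℤ) (t : ℝ) : 1 ≤ WJ J t := by
  unfold WJ Wf
  have h1 := abs_nonneg (uf (alp J) t)
  have h2 := abs_nonneg (vf (alp' J) t)
  have h3 := abs_nonneg ((J 2 : ℤ) : ℝ)
  linarith

/-- the exponent -/
def ps (a A : ℝ) (s : ℝ → ℝ) (p : ℂ → ℝ) (J : Fin 3 → ℤ) (σ : ℝ) (ζ : Fin 3 → ℝ) (t : ℝ) : ℝ :=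
  PhiJ a A s p J ⟨σ, t⟩ + Jd J (XX a A s p (⟨σ, t⟩, ζ))

/-- the fourth coordinate -/
def zh (σ : ℝ) (ζ : Fin 3 → ℝ) : Fin 4 → ℝ := ![ζ 0, ζ 1, ζ 2, σ]

theorem zh_mem {a σ : ℝ} {ζ : Fin 3 → ℝ} (h : ζ ∈ Bs a σ) : (∑ i, zh σ ζ i ^ 2) ≤ a ^ 2 := by
  have h' : ζ 0 ^ 2 + ζ 1 ^ 2 + ζ 2 ^ 2 < a ^ 2 - σ ^ 2 := h
  rw [Fin.sum_univ_four]
  simp only [zh]
  simp
  linarith

theorem isOpen_Bs (a σ : ℝ) : IsOpen (Bs a σ) := by
  unfold Bs
  exact isOpen_lt (by fun_prop) (by fun_prop)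

theorem Bs_sub {a : ℝ} (ha : 0 < a) (σ : ℝ) : Bs a σ ⊆ Metric.closedBall 0 a := by
  intro ζ h
  have h' : ζ 0 ^ 2 + ζ 1 ^ 2 + ζ 2 ^ 2 < a ^ 2 - σ ^ 2 := h
  rw [mem_closedBall_zero_iff, pi_norm_le_iff_of_nonneg ha.le]
  intro i
  rw [Real.norm_eq_abs]
  apply abs_le_of_sq_le_sq _ ha.le
  fin_cases i
  · show ζ 0 ^ 2 ≤ a ^ 2
    nlinarith [sq_nonneg (ζ 1), sq_nonneg (ζ 2), sq_nonneg σ]
  · show ζ 1 ^ 2 ≤ a ^ 2
    nlinarith [sq_nonneg (ζ 0), sq_nonneg (ζ 2), sq_nonneg σ]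
  · show ζ 2 ^ 2 ≤ a ^ 2
    nlinarith [sq_nonneg (ζ 0), sq_nonneg (ζ 1), sq_nonneg σ]

theorem zero_mem_Bs {a σ : ℝ} (h : |σ| < a) : (0 : Fin 3 → ℝ) ∈ Bs a σ := by
  show (0:ℝ) ^ 2 + 0 ^ 2 + 0 ^ 2 < a ^ 2 - σ ^ 2
  have h1 : σ ^ 2 < a ^ 2 := by
    rw [← sq_abs σ]
    exact pow_lt_pow_left₀ h (abs_nonneg _) (by norm_num)
  linarith

theorem vol_Bs {a : ℝ} (ha : 0 < a) (σ : ℝ) : volume (Bs a σ) < ⊤ :=
  (measure_mono (Bs_sub ha σ)).trans_lt (Metric.isBounded_closedBall.measure_lt_top)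

section Bounds

variable {a A δ₀ ρ₀ : ℝ} {s : ℝ → ℝ} {p : ℂ → ℝ} {B : BlockData}

/-- bounds for the exponential -/
theorem E_bd (hD : Dat a A δ₀ ρ₀ s p B) (hE : S_EDR) (hX : S_EXPD) (k : ℕ) :
    ∃ (C : ℝ) (M : ℕ), 0 ≤ C ∧ ∀ (J : Fin 3 → ℤ) (σ : ℝ) (ζ : Fin 3 → ℝ) (t : ℝ), |σ| < a →
      ζ ∈ Bs a σ → |iteratedDeriv k (fun t => Real.exp (ps a A s p J σ ζ t)) t| ≤
        C * WJ J t ^ M * Real.exp (ps a A s p J σ ζ t) := by
  obtain ⟨h1, h2⟩ := hE a A δ₀ ρ₀ s p B hD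
  obtain ⟨Ck, hCk⟩ := hX k
  have h2' : ∀ j : ℕ, ∃ (C : ℝ) (N : ℕ), 1 ≤ j → ∀ (J : Fin 3 → ℤ) (σ : ℝ) (ζ : Fin 3 → ℝ) (t : ℝ),
      |σ| < a → ζ ∈ Bs a σ → |iteratedDeriv j (ps a A s p J σ ζ) t| ≤ C * WJ J t ^ N := by
    intro j
    rcases Nat.eq_zero_or_pos j with hj | hj
    · exact ⟨0, 0, fun h => absurd h (by omega)⟩
    · obtain ⟨C, N, h⟩ := h2 j hj
      exact ⟨C, N, fun _ => h⟩
  choose Cf Nf hf using h2'
  set C' : ℝ := 1 + ∑ j ∈ Finset.range (k + 1), |Cf j| with hC'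
  set N' : ℕ := ∑ j ∈ Finset.range (k + 1), Nf j with hN'
  have hC'1 : 1 ≤ C' := by
    have : 0 ≤ ∑ j ∈ Finset.range (k + 1), |Cf j| := Finset.sum_nonneg fun _ _ => abs_nonneg _
    linarith
  refine ⟨|Ck| * C' ^ k, N' * k, by positivity, ?_⟩
  intro J σ ζ t hσ hζ
  have hW := W_ge J t
  have hB : 1 ≤ C' * WJ J t ^ N' := by
    have := one_le_pow₀ hW (n := N')
    nlinarith
  have h3 : ∀ j : ℕ, 1 ≤ j → j ≤ k → |iteratedDeriv j (ps a A s p J σ ζ) t| ≤ C' * WJ J t ^ N' := by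
    intro j hj hjk
    have hjm : j ∈ Finset.range (k + 1) := Finset.mem_range.mpr (by omega)
    have e1 : Cf j ≤ C' := by
      have := Finset.single_le_sum (f := fun j => |Cf j|) (fun _ _ => abs_nonneg _) hjm
      have h4 := le_abs_self (Cf j)
      linarith
    have e2 : WJ J t ^ Nf j ≤ WJ J t ^ N' := by
      refine pow_le_pow_right₀ hW ?_
      exact Finset.single_le_sum (f := Nf) (fun _ _ => Nat.zero_le _) hjm
    refine (hf j hj J σ ζ t hσ hζ).trans ?_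
    exact mul_le_mul e1 e2 (by positivity) (by linarith)
  have h4 := hCk (ps a A s p J σ ζ) t (C' * WJ J t ^ N') (h1 J σ ζ hσ hζ) hB h3
  refine h4.trans ?_
  have e3 : Ck * (C' * WJ J t ^ N') ^ k ≤ |Ck| * C' ^ k * WJ J t ^ (N' * k) := by
    rw [mul_pow, ← pow_mul, mul_assoc]
    exact mul_le_mul_of_nonneg_right (le_abs_self _) (by positivity)
  exact mul_le_mul_of_nonneg_right e3 (Real.exp_pos _).le

theorem Nice_iter (hNC : S_NICE) (ha : 0 < a) {G : (Fin 4 → ℝ) × (Fin 4 → ℝ) → ℂ} (hG : Nice a G)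
    (k : ℕ) : Nice a ((Dt a)^[k] G) := by
  induction k with
  | zero => exact hG
  | succ k ih =>
    rw [Function.iterate_succ_apply']
    exact (hNC a _ ha ih).1

/-- bounds for the modes -/
theorem m_bd (hNC : S_NICE) (hDC : S_DEC) (ha : 0 < a) {G : (Fin 4 → ℝ) × (Fin 4 → ℝ) → ℂ}
    (hG : Nice a G) (k N : ℕ) : ∃ C : ℝ, 0 ≤ C ∧ ∀ J (ζ : Fin 4 → ℝ) t, (∑ i, ζ i ^ 2) ≤ a ^ 2 →
      ‖tm J (sl ((Dt a)^[k] G) ζ t)‖ * WJ J t ^ N ≤ C := by
  obtain ⟨C, hC⟩ := (hDC a _ ha (Nice_iter hNC ha hG k)).2 N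
  exact ⟨|C|, abs_nonneg _, fun J ζ t h => (hC J ζ t h).trans (le_abs_self _)⟩

theorem m_cd (hNC : S_NICE) (ha : 0 < a) {G : (Fin 4 → ℝ) × (Fin 4 → ℝ) → ℂ}
    (hG : Nice a G) (J : Fin 3 → ℤ) {ζ : Fin 4 → ℝ} (hζ : (∑ i, ζ i ^ 2) ≤ a ^ 2) :
    ContDiff ℝ ∞ (fun t => tm J (sl G ζ t)) ∧
      ∀ k, iteratedDeriv k (fun t => tm J (sl G ζ t)) = fun t => tm J (sl ((Dt a)^[k] G) ζ t) := by
  have h := chain_cd (F := fun k t => tm J (sl ((Dt a)^[k] G) ζ t)) (fun k t => by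
    have := (hNC a _ ha (Nice_iter hNC ha hG k)).2.1 ζ hζ J t
    rw [Function.iterate_succ_apply']
    exact this)
  exact h

/-- the integrand -/
def ph (a A : ℝ) (s : ℝ → ℝ) (p : ℂ → ℝ) (f : V4 → ℂ) (J : Fin 3 → ℤ) (σ : ℝ) (ζ : Fin 3 → ℝ)
    (t : ℝ) : ℂ :=
  ((kJ a A s σ * Real.exp (ps a A s p J σ ζ t) : ℝ) : ℂ) * md a A s p f J (⟨σ, t⟩, ζ)

theorem md_eq (f : V4 → ℂ) (J : Fin 3 → ℤ) (σ : ℝ) (ζ : Fin 3 → ℝ) (t : ℝ) :
    md a A s p f J (⟨σ, t⟩, ζ) = tm J (sl (fun q => f (Xi a A s p q)) (zh σ ζ) t) := rfl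

theorem ph_cd (hD : Dat a A δ₀ ρ₀ s p B) (hE : S_EDR) (hNC : S_NICE) {f : V4 → ℂ}
    (hG : Nice a (fun q => f (Xi a A s p q))) (J : Fin 3 → ℤ) {σ : ℝ} {ζ : Fin 3 → ℝ}
    (hσ : |σ| < a) (hζ : ζ ∈ Bs a σ) : ContDiff ℝ ∞ (ph a A s p f J σ ζ) := by
  obtain ⟨h1, h2⟩ := hE a A δ₀ ρ₀ s p B hD
  have ha : 0 < a := hD.prof.a_pos
  unfold ph
  refine ContDiff.mul ?_ ?_
  · have h3 : ContDiff ℝ ∞ (ps a A s p J σ ζ) := h1 J σ ζ hσ hζ
    exact Complex.ofRealCLM.contDiff.comp (contDiff_const.mul h3.exp)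
  · exact (m_cd hNC ha hG J (zh_mem hζ)).1

theorem ph_bd (hD : Dat a A δ₀ ρ₀ s p B) (hE : S_EDR) (hX : S_EXPD) (hNC : S_NICE) (hDC : S_DEC)
    (hk : ∀ x, 0 < kJ a A s x) {f : V4 → ℂ}
    (hG : Nice a (fun q => f (Xi a A s p q))) (k N : ℕ) :
    ∃ C : ℝ, 0 ≤ C ∧ ∀ (J : Fin 3 → ℤ) (σ : ℝ) (ζ : Fin 3 → ℝ) (t : ℝ), |σ| < a → ζ ∈ Bs a σ →
      ‖iteratedDeriv k (ph a A s p f J σ ζ) t‖ * WJ J t ^ N ≤
        C * (kJ a A s σ * Real.exp (ps a A s p J σ ζ t)) := by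
  obtain ⟨h1, h2⟩ := hE a A δ₀ ρ₀ s p B hD
  have ha : 0 < a := hD.prof.a_pos
  choose Ce Me hCe0 hCe using E_bd hD hE hX
  have hm : ∀ i : ℕ, ∃ C : ℝ, 0 ≤ C ∧ ∀ J (ζ : Fin 4 → ℝ) t, (∑ i, ζ i ^ 2) ≤ a ^ 2 →
      ‖tm J (sl ((Dt a)^[k - i] (fun q => f (Xi a A s p q))) ζ t)‖ * WJ J t ^ (Me i + N) ≤ C :=
    fun i => m_bd hNC hDC ha hG (k - i) (Me i + N)
  choose Cm hCm0 hCm using hm
  refine ⟨∑ i ∈ Finset.range (k + 1), (k.choose i : ℝ) * (Ce i * Cm i), ?_, ?_⟩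
  · exact Finset.sum_nonneg fun i _ => by
      have := hCe0 i
      have := hCm0 i
      positivity
  intro J σ ζ t hσ hζ
  have hps : ContDiff ℝ ∞ (ps a A s p J σ ζ) := h1 J σ ζ hσ hζ
  have hE' : ContDiff ℝ ∞ (fun t => Real.exp (ps a A s p J σ ζ t)) := hps.exp
  obtain ⟨hmc, hmd⟩ := m_cd hNC ha hG J (zh_mem hζ)
  have hu : ContDiff ℝ ∞ (fun t => ((kJ a A s σ * Real.exp (ps a A s p J σ ζ t) : ℝ) : ℂ)) :=
    Complex.ofRealCLM.contDiff.comp (contDiff_const.mul hE')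
  have h3 := norm_prod hu hmc k t
  have h4 : ‖iteratedDeriv k (ph a A s p f J σ ζ) t‖ ≤ ∑ i ∈ Finset.range (k + 1),
      (k.choose i : ℝ) * (kJ a A s σ * (Ce i * WJ J t ^ Me i * Real.exp (ps a A s p J σ ζ t))) *
        ‖tm J (sl ((Dt a)^[k - i] (fun q => f (Xi a A s p q))) (zh σ ζ) t)‖ := by
    refine le_trans h3 (Finset.sum_le_sum fun i _ => ?_)
    rw [hmd]
    refine mul_le_mul_of_nonneg_right (mul_le_mul_of_nonneg_left ?_ (by positivity)) (norm_nonneg _)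
    refine (norm_u hE' (hk σ).le i t).trans ?_
    exact mul_le_mul_of_nonneg_left (hCe i J σ ζ t hσ hζ) (hk σ).le
  have hW := W_ge J t
  have hW0 : 0 < WJ J t := by linarith
  calc ‖iteratedDeriv k (ph a A s p f J σ ζ) t‖ * WJ J t ^ N
      ≤ (∑ i ∈ Finset.range (k + 1),
      (k.choose i : ℝ) * (kJ a A s σ * (Ce i * WJ J t ^ Me i * Real.exp (ps a A s p J σ ζ t))) *
        ‖tm J (sl ((Dt a)^[k - i] (fun q => f (Xi a A s p q))) (zh σ ζ) t)‖) * WJ J t ^ N :=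
        mul_le_mul_of_nonneg_right h4 (by positivity)
    _ = ∑ i ∈ Finset.range (k + 1), (k.choose i : ℝ) * (Ce i *
        (‖tm J (sl ((Dt a)^[k - i] (fun q => f (Xi a A s p q))) (zh σ ζ) t)‖ * WJ J t ^ (Me i + N)))
        * (kJ a A s σ * Real.exp (ps a A s p J σ ζ t)) := by
        rw [Finset.sum_mul]
        exact Finset.sum_congr rfl fun i _ => by rw [pow_add]; ring
    _ ≤ ∑ i ∈ Finset.range (k + 1), (k.choose i : ℝ) * (Ce i * Cm i)
        * (kJ a A s σ * Real.exp (ps a A s p J σ ζ t)) := by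
        refine Finset.sum_le_sum fun i _ => ?_
        refine mul_le_mul_of_nonneg_right ?_ (mul_nonneg (hk σ).le (Real.exp_pos _).le)
        refine mul_le_mul_of_nonneg_left ?_ (by positivity)
        exact mul_le_mul_of_nonneg_left (hCm i J (zh σ ζ) t (zh_mem hζ)) (hCe0 i)
    _ = (∑ i ∈ Finset.range (k + 1), (k.choose i : ℝ) * (Ce i * Cm i))
        * (kJ a A s σ * Real.exp (ps a A s p J σ ζ t)) := by rw [Finset.sum_mul]

/-- the dependence of the exponent on `ζ` -/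
theorem ps_sub (J : Fin 3 → ℤ) (σ : ℝ) (ζ : Fin 3 → ℝ) (t : ℝ) :
    ps a A s p J σ ζ t = ps a A s p J σ 0 t +
      (J 0 * (Helper24.AB.ph * (Real.exp (kap * t) * (Real.sqrt (Atl a A s σ) * ζ 0)) +
          ph' * (Real.exp (-(kap * t)) * (2 * A * ζ 1))) +
        J 1 * (Real.exp (kap * t) * (Real.sqrt (Atl a A s σ) * ζ 0) +
          Real.exp (-(kap * t)) * (2 * A * ζ 1)) + J 2 * (2 * A * ζ 2)) := by
  unfold ps Jd XX
  simp
  ring

theorem exp_bd (hD : Dat a A δ₀ ρ₀ s p B) (hE : S_EDR) (J : Fin 3 → ℤ) {σ : ℝ} (hσ : |σ| < a)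
    (t₀ : ℝ) : ∃ M : ℝ, ∀ t, |t - t₀| ≤ 1 → ∀ ζ ∈ Bs a σ, Real.exp (ps a A s p J σ ζ t) ≤ M := by
  obtain ⟨h1, h2⟩ := hE a A δ₀ ρ₀ s p B hD
  have ha : 0 < a := hD.prof.a_pos
  have hc0 : Continuous (ps a A s p J σ 0) := (h1 J σ 0 hσ (zero_mem_Bs hσ)).continuous
  have hc : Continuous (fun q : ℝ × (Fin 3 → ℝ) => ps a A s p J σ q.2 q.1) := by
    have e : (fun q : ℝ × (Fin 3 → ℝ) => ps a A s p J σ q.2 q.1) = fun q =>
        ps a A s p J σ 0 q.1 +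
      (J 0 * (Helper24.AB.ph * (Real.exp (kap * q.1) * (Real.sqrt (Atl a A s σ) * q.2 0)) +
          ph' * (Real.exp (-(kap * q.1)) * (2 * A * q.2 1))) +
        J 1 * (Real.exp (kap * q.1) * (Real.sqrt (Atl a A s σ) * q.2 0) +
          Real.exp (-(kap * q.1)) * (2 * A * q.2 1)) + J 2 * (2 * A * q.2 2)) := by
      funext q
      exact ps_sub J σ q.2 q.1
    rw [e]
    refine (hc0.comp continuous_fst).add ?_
    fun_prop
  have hK : IsCompact ((Icc (t₀ - 1) (t₀ + 1)) ×ˢ (Metric.closedBall (0 : Fin 3 → ℝ) a)) :=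
    isCompact_Icc.prod (isCompact_closedBall 0 a)
  obtain ⟨M, hM⟩ := hK.exists_bound_of_continuousOn (Real.continuous_exp.comp hc).continuousOn
  refine ⟨M, fun t ht ζ hζ => ?_⟩
  have h3 := hM (t, ζ) ⟨by rw [abs_le] at ht; constructor <;> linarith, Bs_sub ha σ hζ⟩
  exact (le_abs_self _).trans h3

/-- continuity of the integrand in `ζ` -/
theorem ph_cont (hD : Dat a A δ₀ ρ₀ s p B) (hNC : S_NICE) {f : V4 → ℂ}
    (hG : Nice a (fun q => f (Xi a A s p q))) (J : Fin 3 → ℤ) (σ t : ℝ) :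
    ContinuousOn (fun ζ => ph a A s p f J σ ζ t) (Bs a σ) := by
  have ha : 0 < a := hD.prof.a_pos
  have e : (fun ζ : Fin 3 → ℝ => ps a A s p J σ ζ t) = fun ζ =>
      ps a A s p J σ 0 t +
      (J 0 * (Helper24.AB.ph * (Real.exp (kap * t) * (Real.sqrt (Atl a A s σ) * ζ 0)) +
          ph' * (Real.exp (-(kap * t)) * (2 * A * ζ 1))) +
        J 1 * (Real.exp (kap * t) * (Real.sqrt (Atl a A s σ) * ζ 0) +
          Real.exp (-(kap * t)) * (2 * A * ζ 1)) + J 2 * (2 * A * ζ 2)) := by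
    funext ζ
    exact ps_sub J σ ζ t
  have hc : Continuous (fun ζ : Fin 3 → ℝ => ps a A s p J σ ζ t) := by
    rw [e]
    fun_prop
  have hz : Continuous (fun ζ : Fin 3 → ℝ => (zh σ ζ, t)) := by
    refine Continuous.prodMk ?_ continuous_const
    refine continuous_pi fun i => ?_
    fin_cases i
    · exact continuous_apply 0
    · exact continuous_apply 1
    · exact continuous_apply 2
    · exact continuous_const
  unfold ph
  refine ContinuousOn.mul ?_ ?_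
  · refine Continuous.continuousOn ?_
    exact Complex.continuous_ofReal.comp (continuous_const.mul (Real.continuous_exp.comp hc))
  · have h3 := (hNC a _ ha hG).2.2.1 J
    have h4 : MapsTo (fun ζ : Fin 3 → ℝ => (zh σ ζ, t)) (Bs a σ)
        {q : (Fin 4 → ℝ) × ℝ | (∑ i, q.1 i ^ 2) ≤ a ^ 2} := fun ζ hζ => zh_mem hζ
    have h5 : (fun ζ => md a A s p f J (⟨σ, t⟩, ζ)) =
        (fun q : (Fin 4 → ℝ) × ℝ => tm J (sl (fun q => f (Xi a A s p q)) q.1 q.2)) ∘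
          (fun ζ : Fin 3 → ℝ => (zh σ ζ, t)) := by
      funext ζ
      exact md_eq f J σ ζ t
    rw [h5]
    exact ContinuousOn.comp h3 hz.continuousOn h4

end Bounds

end Pool.Agent.Helper42.AB.FJ

namespace Pool.Agent.Helper42.AB

open Pool.Agent.Helper24.AB Pool.Agent.Helper10.AB FJ

/-- **PACKET FJ1** -/
theorem fj1 : S_PB → S_NICE → S_DEC → S_EDR → S_EXPD → S_INTD → S_NRM → S_WW → S_FJ1 := by
  classical
  intro hPB hNC hDC hE hX hI hN _ a A δ₀ ρ₀ s p B hD f hf hf'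
  have ha : 0 < a := hD.prof.a_pos
  have hG : Nice a (fun q => f (Xi a A s p q)) := hPB a A δ₀ ρ₀ s p B hD f hf hf'
  obtain ⟨hN1, -, ⟨hkc, hkp⟩, C0, hC0⟩ := hN a A δ₀ ρ₀ s p B hD
  -- the function
  set φ : (Fin 3 → ℤ) → ℝ → ℝ → (Fin 3 → ℝ) → ℂ :=
    fun J σ t ζ => if ζ ∈ Bs a σ then ph a A s p f J σ ζ t else 0 with hφ
  have hFJ : ∀ J σ, (fun t : ℝ => FJ a A s p f J ⟨σ, t⟩) =
      fun t => ∫ ζ, φ J σ t ζ ∂(volume.restrict (Bs a σ)) := by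
    intro J σ
    funext t
    unfold FJ
    refine setIntegral_congr_fun (isOpen_Bs a σ).measurableSet fun ζ hζ => ?_
    simp only [hφ]
    rw [if_pos hζ]
    rfl
  have hid : ∀ J σ ζ, ζ ∈ Bs a σ → (fun t => φ J σ t ζ) = ph a A s p f J σ ζ := by
    intro J σ ζ hζ
    funext t
    simp only [hφ]
    rw [if_pos hζ]
  have hid' : ∀ J σ ζ, ζ ∉ Bs a σ → (fun t => φ J σ t ζ) = fun _ => 0 := by
    intro J σ ζ hζ
    funext t
    simp only [hφ]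
    rw [if_neg hζ]
  have hbd := fun k N => ph_bd hD hE hX hNC hDC hkp hG k N
  have hmain : ∀ J σ, |σ| < a →
      ContDiff ℝ ∞ (fun t => ∫ ζ, φ J σ t ζ ∂(volume.restrict (Bs a σ))) ∧
      ∀ (k : ℕ) (t : ℝ),
      iteratedDeriv k (fun t => ∫ ζ, φ J σ t ζ ∂(volume.restrict (Bs a σ))) t =
        ∫ ζ, iteratedDeriv k (fun t => φ J σ t ζ) t ∂(volume.restrict (Bs a σ)) := by
    intro J σ hσ
    have hfin : IsFiniteMeasure ((volume : Measure (Fin 3 → ℝ)).restrict (Bs a σ)) :=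
      ⟨by rw [Measure.restrict_apply_univ]; exact vol_Bs ha σ⟩
    refine hI (Fin 3 → ℝ) (volume.restrict (Bs a σ)) (φ J σ) hfin ?_ ?_ ?_
    · intro ζ
      by_cases hζ : ζ ∈ Bs a σ
      · rw [hid J σ ζ hζ]
        exact ph_cd hD hE hNC hG J hσ hζ
      · rw [hid' J σ ζ hζ]
        exact contDiff_const
    · intro t
      have h1 : AEStronglyMeasurable (fun ζ => ph a A s p f J σ ζ t) (volume.restrict (Bs a σ)) :=
        (ph_cont hD hNC hG J σ t).aestronglyMeasurable (isOpen_Bs a σ).measurableSet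
      refine h1.congr ?_
      rw [Filter.EventuallyEq, ae_restrict_iff' (isOpen_Bs a σ).measurableSet]
      refine Eventually.of_forall fun ζ hζ => ?_
      simp only [hφ]
      rw [if_pos hζ]
    · intro k t₀
      obtain ⟨C, hC, h1⟩ := hbd k 0
      obtain ⟨M, hM⟩ := exp_bd hD hE J hσ t₀
      refine ⟨C * (kJ a A s σ * |M|), fun t ht ζ => ?_⟩
      by_cases hζ : ζ ∈ Bs a σ
      · rw [hid J σ ζ hζ]
        have h2 := h1 J σ ζ t hσ hζ
        rw [pow_zero, mul_one] at h2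
        refine h2.trans (mul_le_mul_of_nonneg_left (mul_le_mul_of_nonneg_left ?_ (hkp σ).le) hC)
        exact (hM t ht ζ hζ).trans (le_abs_self M)
      · rw [hid' J σ ζ hζ]
        have : iteratedDeriv k (fun _ : ℝ => (0:ℂ)) t = 0 := by
          simp [iteratedDeriv_fun_const_zero]
        rw [this, norm_zero]
        have := (hkp σ).le
        positivity
  refine ⟨fun J σ hσ => ?_, fun k N => ?_⟩
  · rw [hFJ J σ]
    exact (hmain J σ hσ).1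
  · obtain ⟨C, hC, h1⟩ := hbd k N
    refine ⟨C * ((C0 + 1) / 2), fun J σ t hσ => ?_⟩
    rw [hFJ J σ, (hmain J σ hσ).2 k t]
    have hW := W_ge J t
    have hW0 : 0 < WJ J t ^ N := by positivity
    -- the integral of the bound
    obtain ⟨hi1, hi2⟩ := hN1 J ⟨σ, t⟩ (by simpa [strip] using hσ)
    have hi1' : IntegrableOn (fun ζ => kJ a A s σ *
        Real.exp (2 * Jd J (XX a A s p (⟨σ, t⟩, ζ)))) (Bs a σ) := hi1
    have hi2' : ∫ ζ in Bs a σ, kJ a A s σ * Real.exp (2 * Jd J (XX a A s p (⟨σ, t⟩, ζ))) =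
      Real.exp (-(2 * PhiJ a A s p J ⟨σ, t⟩)) := hi2
    have e1 : ∀ ζ, kJ a A s σ * Real.exp (2 * ps a A s p J σ ζ t) =
        Real.exp (2 * PhiJ a A s p J ⟨σ, t⟩) *
          (kJ a A s σ * Real.exp (2 * Jd J (XX a A s p (⟨σ, t⟩, ζ)))) := by
      intro ζ
      unfold ps
      rw [mul_add, Real.exp_add]
      ring
    have hi3 : IntegrableOn (fun ζ => kJ a A s σ * Real.exp (2 * ps a A s p J σ ζ t)) (Bs a σ) := by
      simp only [e1]
      exact hi1'.const_mul _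
    have hi4 : ∫ ζ in Bs a σ, kJ a A s σ * Real.exp (2 * ps a A s p J σ ζ t) = 1 := by
      simp only [e1]
      rw [integral_const_mul, hi2', ← Real.exp_add]
      simp
    have hi5 : IntegrableOn (fun _ : Fin 3 → ℝ => kJ a A s σ) (Bs a σ) :=
      integrableOn_const (vol_Bs ha σ).ne
    have hi6 : ∫ _ζ in Bs a σ, kJ a A s σ = kJ a A s σ * (volume (Bs a σ)).toReal := by
      rw [setIntegral_const, smul_eq_mul, mul_comm]
      rfl
    have h2 : ∀ ζ ∈ Bs a σ, ‖iteratedDeriv k (fun t => φ J σ t ζ) t‖ ≤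
        C / WJ J t ^ N * ((kJ a A s σ + kJ a A s σ * Real.exp (2 * ps a A s p J σ ζ t)) / 2) := by
      intro ζ hζ
      rw [hid J σ ζ hζ, div_mul_eq_mul_div, le_div_iff₀ hW0]
      refine (h1 J σ ζ t hσ hζ).trans (mul_le_mul_of_nonneg_left ?_ hC)
      have e2 : Real.exp (2 * ps a A s p J σ ζ t) = Real.exp (ps a A s p J σ ζ t) ^ 2 := by
        rw [← Real.exp_nat_mul]
        norm_num
      rw [e2]
      nlinarith [sq_nonneg (Real.exp (ps a A s p J σ ζ t) - 1), (hkp σ).le,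
        mul_nonneg (hkp σ).le (sq_nonneg (Real.exp (ps a A s p J σ ζ t) - 1))]
    have hi7 : IntegrableOn (fun ζ => C / WJ J t ^ N *
        ((kJ a A s σ + kJ a A s σ * Real.exp (2 * ps a A s p J σ ζ t)) / 2)) (Bs a σ) :=
      ((hi5.add hi3).div_const 2).const_mul _
    have h3 : ‖∫ ζ in Bs a σ, iteratedDeriv k (fun t => φ J σ t ζ) t‖ ≤
        ∫ ζ in Bs a σ, C / WJ J t ^ N *
        ((kJ a A s σ + kJ a A s σ * Real.exp (2 * ps a A s p J σ ζ t)) / 2) := by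
      refine norm_integral_le_of_norm_le hi7 ?_
      rw [ae_restrict_iff' (isOpen_Bs a σ).measurableSet]
      exact Eventually.of_forall h2
    have h4 : ∫ ζ in Bs a σ, C / WJ J t ^ N *
        ((kJ a A s σ + kJ a A s σ * Real.exp (2 * ps a A s p J σ ζ t)) / 2) =
        C / WJ J t ^ N * ((kJ a A s σ * (volume (Bs a σ)).toReal + 1) / 2) := by
      rw [integral_const_mul, integral_div, integral_add hi5 hi3, hi4, hi6]
    rw [h4] at h3
    calc ‖∫ ζ in Bs a σ, iteratedDeriv k (fun t => φ J σ t ζ) t‖ * WJ J t ^ N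
        ≤ C / WJ J t ^ N * ((kJ a A s σ * (volume (Bs a σ)).toReal + 1) / 2) * WJ J t ^ N :=
          mul_le_mul_of_nonneg_right h3 hW0.le
      _ = C * ((kJ a A s σ * (volume (Bs a σ)).toReal + 1) / 2) := by
          field_simp
      _ ≤ C * ((C0 + 1) / 2) := by
          have := hC0 σ hσ
          refine mul_le_mul_of_nonneg_left ?_ hC
          linarith

end Pool.Agent.Helper42.AB
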