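import Pool.Agent.Helper15.AB.GoalsE

/-! # Project AB (MP_1ef41b_an), packet LEV0: the Levi form at the points with `|σ| ≥ a`. -/

open MeasureTheory Set Filter Topology
open scoped ContDiff

noncomputable section

namespace Pool.Agent.Helper42.AB

open Pool.Agent.Helper24.AB Pool.Agent.Helper15.AB

/-- the nonnegative part of `r` -/
def Gn (a A : ℝ) (s : ℝ → ℝ) (p : ℂ → ℝ) (P : V4) : ℝ :=
  (ypf p P - A) ^ 2 / Atl a A s (P 3).re + (ymf P ^ 2 + x0 P ^ 2) / (4 * A ^ 2)

theorem rfun_eq (a A : ℝ) (s : ℝ → ℝ) (p : ℂ → ℝ) (P : V4) :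
    rfun a A s p P = Gn a A s p P - (a ^ 2 - (P 3).re ^ 2) := rfl

theorem Gn_nonneg {a A : ℝ} {s : ℝ → ℝ} (hpos : ∀ x, 0 < Atl a A s x) (p : ℂ → ℝ) (P : V4) :
    0 ≤ Gn a A s p P := by
  unfold Gn
  have := hpos (P 3).re
  positivity

theorem xp_line (P z : V4) (τ : ℝ) : xp (P + τ • z) = xp P + τ * xp z := by
  unfold xp
  simp
  ring

theorem xm_line (P z : V4) (τ : ℝ) : xm (P + τ • z) = xm P + τ * xm z := by
  unfold xm
  simp
  ring

theorem x0_line (P z : V4) (τ : ℝ) : x0 (P + τ • z) = x0 P + τ * x0 z := by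
  unfold x0
  simp

theorem lev0 (hA : S_ATL) (hR : S_RSM) : S_LEV0 := by
  intro a A s p hpr hp P h1 h2 h0 ξ hξ hiξ
  obtain ⟨-, hpos, -, -⟩ := hA a A s hpr
  obtain ⟨hcd, -, -⟩ := hR a A s p hpr hp
  have ha := hpr.a_pos
  have hA0 := hpr.A_pos
  set U : Set V4 := {P : V4 | |(P 3).re| < 3 * a / 2} with hU
  have hUo : IsOpen U := isOpen_lt (by fun_prop) continuous_const
  have hPU : P ∈ U := h2
  have hσ : a ^ 2 ≤ (P 3).re ^ 2 := by
    rw [← sq_abs (P 3).re]
    exact pow_le_pow_left₀ ha.le h1 2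
  have hG0 : Gn a A s p P = 0 := by
    have := rfun_eq a A s p P
    have h3 := Gn_nonneg hpos p P
    rw [h0] at this
    linarith
  have hσ' : (P 3).re ≠ 0 := by
    intro h
    rw [h, abs_zero] at h1
    linarith
  have hAt := hpos (P 3).re
  have hy : ypf p P = A ∧ ymf P = 0 ∧ x0 P = 0 := by
    unfold Gn at hG0
    have e1 : 0 ≤ (ypf p P - A) ^ 2 / Atl a A s (P 3).re := by positivity
    have e2 : 0 ≤ (ymf P ^ 2 + x0 P ^ 2) / (4 * A ^ 2) := by positivity
    have e3 : (ypf p P - A) ^ 2 / Atl a A s (P 3).re = 0 := by linarith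
    have e4 : (ymf P ^ 2 + x0 P ^ 2) / (4 * A ^ 2) = 0 := by linarith
    have e5 : (ypf p P - A) ^ 2 = 0 := by
      rcases div_eq_zero_iff.mp e3 with h | h
      · exact h
      · exact absurd h hAt.ne'
    have e6 : ymf P ^ 2 + x0 P ^ 2 = 0 := by
      rcases div_eq_zero_iff.mp e4 with h | h
      · exact h
      · exact absurd h (by positivity)
    refine ⟨?_, ?_, ?_⟩
    · have := pow_eq_zero_iff (two_ne_zero) |>.mp e5
      linarith
    · have : ymf P ^ 2 = 0 := by nlinarith [sq_nonneg (ymf P), sq_nonneg (x0 P)]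
      exact pow_eq_zero_iff (two_ne_zero) |>.mp this
    · have : x0 P ^ 2 = 0 := by nlinarith [sq_nonneg (ymf P), sq_nonneg (x0 P)]
      exact pow_eq_zero_iff (two_ne_zero) |>.mp this
  obtain ⟨hy1, hy2, hy3⟩ := hy
  -- first derivative
  have hcdP : ContDiffAt ℝ ∞ (rfun a A s p) P := hcd.contDiffAt (hUo.mem_nhds hPU)
  have hdP : DifferentiableAt ℝ (rfun a A s p) P := hcdP.differentiableAt (by simp)
  have hσd : HasFDerivAt (fun Q : V4 => a ^ 2 - (Q 3).re ^ 2)
      (-((2 * (P 3).re) • (Complex.reCLM.comp (ContinuousLinearMap.proj (R := ℝ) (φ := fun _ : Fin 4 => ℂ) 3)))) P := by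
    have e1 : HasFDerivAt (fun Q : V4 => (Q 3).re)
        (Complex.reCLM.comp (ContinuousLinearMap.proj (R := ℝ) (φ := fun _ : Fin 4 => ℂ) 3)) P :=
      (Complex.reCLM.comp (ContinuousLinearMap.proj (R := ℝ) (φ := fun _ : Fin 4 => ℂ) 3)).hasFDerivAt
    have e2 := (e1.pow 2).const_sub (a ^ 2)
    refine e2.congr_fderiv ?_
    simp
  have hGd : HasFDerivAt (Gn a A s p) (fderiv ℝ (rfun a A s p) P
      + -((2 * (P 3).re) • (Complex.reCLM.comp (ContinuousLinearMap.proj (R := ℝ) (φ := fun _ : Fin 4 => ℂ) 3)))) P := by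
    have e1 := hdP.hasFDerivAt.add hσd
    refine e1.congr_of_eventuallyEq (Eventually.of_forall fun Q => ?_)
    simp only [Pi.add_apply]
    rw [rfun_eq]; ring
  have hmin : IsLocalMin (Gn a A s p) P :=
    Eventually.of_forall fun Q => by rw [hG0]; exact Gn_nonneg hpos p Q
  have hz := hmin.hasFDerivAt_eq_zero hGd
  have hdr : ∀ z : V4, fderiv ℝ (rfun a A s p) P z = 2 * (P 3).re * (z 3).re := by
    intro z
    have := congrArg (fun L : V4 →L[ℝ] ℝ => L z) hz
    simp at this
    linarith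
  have hre : (ξ 3).re = 0 := by
    rw [hdr] at hξ
    rcases mul_eq_zero.mp hξ with h | h
    · exact absurd (by linarith) hσ'
    · exact h
  have him : (ξ 3).im = 0 := by
    rw [hdr] at hiξ
    rcases mul_eq_zero.mp hiξ with h | h
    · exact absurd (by linarith) hσ'
    · simpa using h
  have hξ3 : ξ 3 = 0 := Complex.ext hre him
  -- second derivative
  have key : ∀ z : V4, z 3 = 0 → 0 ≤ (fderiv ℝ (fderiv ℝ (rfun a A s p)) P z) z := by
    intro z hz3
    set c : ℝ := (Real.exp (-(kap * (P 3).im)) * xp z) ^ 2 / Atl a A s (P 3).re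
      + ((Real.exp (kap * (P 3).im) * xm z) ^ 2 + x0 z ^ 2) / (4 * A ^ 2) with hc
    have hc0 : 0 ≤ c := by positivity
    have h3 : ∀ τ : ℝ, (P + τ • z) 3 = P 3 := fun τ => by simp [hz3]
    have hr : ∀ τ : ℝ, rfun a A s p (P + τ • z) = c * τ ^ 2 - (a ^ 2 - (P 3).re ^ 2) := by
      intro τ
      rw [rfun_eq]
      have e1 : ypf p (P + τ • z) - A = τ * (Real.exp (-(kap * (P 3).im)) * xp z) := by
        have : ypf p (P + τ • z) = ypf p P + τ * (Real.exp (-(kap * (P 3).im)) * xp z) := by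
          unfold ypf
          rw [h3, xp_line]; ring
        rw [this, hy1]; ring
      have e2 : ymf (P + τ • z) = τ * (Real.exp (kap * (P 3).im) * xm z) := by
        have : ymf (P + τ • z) = ymf P + τ * (Real.exp (kap * (P 3).im) * xm z) := by
          unfold ymf
          rw [h3, xm_line]; ring
        rw [this, hy2]; ring
      have e3 : x0 (P + τ • z) = τ * x0 z := by rw [x0_line, hy3]; ring
      unfold Gn
      rw [e1, e2, e3, h3, hc]
      ring
    have hdl : ∀ τ : ℝ, HasDerivAt (fun τ : ℝ => P + τ • z) z τ := by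
      intro τ
      have := ((hasDerivAt_id τ).smul_const z).const_add P
      simpa using this
    have hin : ∀ τ : ℝ, P + τ • z ∈ U := by
      intro τ
      rw [hU, mem_ofPred_eq, h3]
      exact h2
    have hd1 : ∀ τ : ℝ, fderiv ℝ (rfun a A s p) (P + τ • z) z = c * (2 * τ) := by
      intro τ
      have e1 : HasDerivAt (fun τ : ℝ => rfun a A s p (P + τ • z))
          (fderiv ℝ (rfun a A s p) (P + τ • z) z) τ := by
        have hd : DifferentiableAt ℝ (rfun a A s p) (P + τ • z) :=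
          (hcd.contDiffAt (hUo.mem_nhds (hin τ))).differentiableAt (by simp)
        exact hd.hasFDerivAt.comp_hasDerivAt τ (hdl τ)
      have e2 : HasDerivAt (fun τ : ℝ => rfun a A s p (P + τ • z)) (c * (2 * τ)) τ := by
        have e3 : (fun τ : ℝ => rfun a A s p (P + τ • z))
            = fun τ : ℝ => c * τ ^ 2 - (a ^ 2 - (P 3).re ^ 2) := funext hr
        rw [e3]
        have e4 := ((hasDerivAt_pow 2 τ).const_mul c).sub_const (a ^ 2 - (P 3).re ^ 2)
        simpa using e4
      exact e1.unique e2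
    have hd2 : HasDerivAt (fun τ : ℝ => fderiv ℝ (rfun a A s p) (P + τ • z) z)
        ((fderiv ℝ (fderiv ℝ (rfun a A s p)) P z) z) 0 := by
      have hdd : DifferentiableAt ℝ (fderiv ℝ (rfun a A s p)) P :=
        (hcdP.fderiv_right (m := ∞) (by simp)).differentiableAt (by simp)
      have e1 : HasFDerivAt (fderiv ℝ (rfun a A s p)) (fderiv ℝ (fderiv ℝ (rfun a A s p)) P)
          (P + (0:ℝ) • z) := by
        rw [zero_smul, add_zero]; exact hdd.hasFDerivAt
      have e2 := e1.comp_hasDerivAt (0:ℝ) (hdl 0)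
      exact e2.clm_apply (hasDerivAt_const (0:ℝ) z) |>.congr_deriv (by simp)
    have hd3 : HasDerivAt (fun τ : ℝ => fderiv ℝ (rfun a A s p) (P + τ • z) z) (c * 2) 0 := by
      have e3 : (fun τ : ℝ => fderiv ℝ (rfun a A s p) (P + τ • z) z) = fun τ : ℝ => c * (2 * τ) :=
        funext hd1
      rw [e3]
      have := ((hasDerivAt_id (0:ℝ)).const_mul 2).const_mul c
      simpa using this
    rw [hd2.unique hd3]
    positivity
  unfold leviForm
  refine add_nonneg (key ξ hξ3) (key (Complex.I • ξ) ?_)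
  simp [hξ3]

end Pool.Agent.Helper42.AB
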